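import Pool.Agent.Y272.LC.Stm2

set_option autoImplicit false

/-!
# Parameters with angle near `θ` (job PSI of helper272)
-/

open Complex Filter Topology Metric Set MeasureTheory

namespace Pool.Agent.Y514.LC

open Pool.Agent.H712R2 Pool.Agent.H713R2 Pool.Agent.H713R2.AR Pool.Agent.W677.Mar
open Pool.Agent.Y272.TY Pool.Agent.Y272.LC

lemma zt_re (s t : ℝ) : (zt s t).re = s := by
  simp [zt]

lemma iter_map {d : ℕ} {Φ : ℂ → ℂ → ℂ} (hd : 1 ≤ d) (hΦ : IsBott d Φ) (c : ℂ) (n : ℕ) :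
    ∀ ζ : ℂ, 0 ≤ ζ.re → green d c 0 < ζ.re → (fc d c)^[n] (Φ c ζ) = Φ c ((d : ℂ) ^ n * ζ) := by
  induction n with
  | zero => intro ζ _ _; simp
  | succ n ih =>
    intro ζ h0 h
    rw [Function.iterate_succ_apply, hΦ.map c ζ h]
    have hre : ((d : ℂ) * ζ).re = d * ζ.re := by simp
    have hd' : (1 : ℝ) ≤ d := by exact_mod_cast hd
    rw [ih _ (by rw [hre]; positivity) (by rw [hre]; nlinarith)]
    congr 1
    ring

lemma per_int {d : ℕ} {Φ : ℂ → ℂ → ℂ} (hΦ : IsBott d Φ) (c : ℂ) (s t : ℝ) (h : green d c 0 < s)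
    (k : ℤ) : Φ c (zt s (t - k)) = Φ c (zt s t) := by
  have h1 : ∀ t : ℝ, Φ c (zt s (t + 1)) = Φ c (zt s t) := by
    intro t
    rw [← hΦ.per c (zt s t) (by rw [zt_re]; exact h)]
    congr 1
    simp only [zt]
    push_cast
    ring
  have h2 : ∀ (m : ℕ) (t : ℝ), Φ c (zt s (t + m)) = Φ c (zt s t) := by
    intro m
    induction m with
    | zero => intro t; simp
    | succ m ih =>
      intro t
      rw [Nat.cast_succ, ← add_assoc, h1, ih]
  rcases Int.eq_nat_or_neg k with ⟨m, rfl | rfl⟩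
  · rw [← h2 m (t - ((m : ℤ) : ℝ))]
    congr 2
    push_cast
    ring
  · rw [← h2 m t]
    congr 2
    push_cast
    ring

lemma crit {d : ℕ} {Φ : ℂ → ℂ → ℂ} {β : ℂ → ℂ} (hd : 2 ≤ d) (hΦ : IsBott d Φ) (hβ : IsBeta d β)
    (n : ℕ) (k : ℤ) (s t : ℝ) (hs : 0 < s) :
    green d (pa β t s) 0 < (d : ℝ) ^ n * s ∧
    P d (n + 1) (pa β t s) = Φ (pa β t s) (zt ((d : ℝ) ^ n * s) ((d : ℝ) ^ n * t - k)) := by
  have hd0 : (2 : ℝ) ≤ d := by exact_mod_cast hd
  obtain ⟨h1, h2⟩ := hΦ.par β hβ (zt s t) (by rw [zt_re]; exact hs)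
  rw [zt_re] at h1
  have h1' : green d (pa β t s) 0 = s / d := h1
  have h2' : Φ (pa β t s) (zt s t) = pa β t s := h2
  have hlt : s / d < s := by
    rw [div_lt_iff₀ (by linarith)]
    nlinarith
  have hle : s ≤ (d : ℝ) ^ n * s := by
    have : (1 : ℝ) ≤ (d : ℝ) ^ n := one_le_pow₀ (by linarith)
    nlinarith
  have h3 : green d (pa β t s) 0 < (d : ℝ) ^ n * s := by rw [h1']; linarith
  refine ⟨h3, ?_⟩
  rw [per_int hΦ _ _ _ h3]
  have h4 : P d (n + 1) (pa β t s) = (fc d (pa β t s))^[n] (pa β t s) := by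
    unfold P
    rw [Function.iterate_succ_apply]
    congr 1
    have : d ≠ 0 := by omega
    simp [fc, this]
  have h5 := iter_map (by omega) hΦ (pa β t s) n (zt s t) (by rw [zt_re]; exact hs.le)
    (by rw [zt_re, h1']; exact hlt)
  rw [h2'] at h5
  rw [h4, h5]
  congr 1
  simp only [zt]
  push_cast
  ring

lemma pa_cont {d : ℕ} {β : ℂ → ℂ} (hβ : IsBeta d β) {s t : ℝ → ℝ} (hs : Continuous s)
    (ht : Continuous t) (S : Set ℝ) (hS : ∀ τ ∈ S, 0 < s τ) :
    ContinuousOn (fun τ => pa β (t τ) (s τ)) S := by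
  have h1 : Continuous (fun τ => Complex.exp (-(zt (s τ) (t τ)))) := by
    unfold zt
    fun_prop
  have h2 : ∀ τ ∈ S, Complex.exp (-(zt (s τ) (t τ))) ∈ ball (0 : ℂ) 1 := by
    intro τ hτ
    rw [mem_ball_zero_iff, Complex.norm_exp, Complex.neg_re, zt_re]
    exact Real.exp_lt_one_iff.2 (by linarith [hS τ hτ])
  have h3 : ContinuousOn (fun τ => β (Complex.exp (-(zt (s τ) (t τ))))) S :=
    hβ.diff.continuousOn.comp h1.continuousOn h2
  have h4 : ContinuousOn (fun τ => (Complex.exp (-(zt (s τ) (t τ))))⁻¹) S :=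
    h1.continuousOn.inv₀ fun τ _ => Complex.exp_ne_zero _
  exact h4.mul h3

lemma P_cont (d n : ℕ) : Continuous (P d n) := by
  induction n with
  | zero =>
    have : P d 0 = fun _ => 0 := by
      funext c
      exact P_zero d c
    rw [this]
    exact continuous_const
  | succ n ih =>
    have : P d (n + 1) = fun c => (P d n c) ^ d + c := by
      funext c
      exact P_succ d n c
    rw [this]
    fun_prop

theorem t' : St_Psi := by
  intro d Φ β hd hΦ hβ c0 w θ ε l a b η κ ρ M e n k W hε hl hland H ha hb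
  have hd0 : (2 : ℝ) ≤ d := by exact_mod_cast hd
  have hdn : (0 : ℝ) < (d : ℝ) ^ n := by positivity
  have bound : ∀ s t : ℝ, 0 < s → (d : ℝ) ^ n * s < l → a < (d : ℝ) ^ n * t - k →
      (d : ℝ) ^ n * t - k < b → pa β t s ∈ ball c0 ε → ‖P d (n + 1) (pa β t s) - w‖ ≤ η := by
    intro s t hs hsl hat htb hmem
    obtain ⟨h1, h2⟩ := crit hd hΦ hβ n k s t hs
    rw [h2]
    exact H _ hmem _ _ h1 hsl hat htb
  have hsmall : ∀ᶠ s : ℝ in 𝓝[>] 0, 0 < s ∧ (d : ℝ) ^ n * s < l := by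
    have h1 : ∀ᶠ s : ℝ in 𝓝[>] 0, (d : ℝ) ^ n * s < l := by
      have h2 : Tendsto (fun s : ℝ => (d : ℝ) ^ n * s) (𝓝[>] 0) (𝓝 ((d : ℝ) ^ n * 0)) :=
        (tendsto_id.const_mul _).mono_left nhdsWithin_le_nhds
      rw [mul_zero] at h2
      exact h2.eventually (gt_mem_nhds hl)
    filter_upwards [h1, self_mem_nhdsWithin] with s hs hs'
    exact ⟨hs', hs⟩
  have part1 : ‖P d (n + 1) c0 - w‖ ≤ η := by
    have h1 : Tendsto (fun s => ‖P d (n + 1) (pa β θ s) - w‖) (𝓝[>] 0)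
        (𝓝 ‖P d (n + 1) c0 - w‖) :=
      (((P_cont d (n + 1)).tendsto c0).comp hland |>.sub_const w).norm
    refine le_of_tendsto h1 ?_
    filter_upwards [hsmall, hland.eventually (ball_mem_nhds c0 hε)] with s hs hs'
    exact bound s θ hs.1 hs.2 ha hb hs'
  refine ⟨part1, ?_⟩
  intro hκ hρ hM hρM he hW1 hW2 hlt s t hs hsl hat htb
  by_contra hcon
  rw [not_le] at hcon
  set r : ℝ := ρ / (2 * M) with hr
  have hr0 : 0 < r := by positivity
  have hrM : r < ρ / M := by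
    rw [hr, div_lt_div_iff₀ (by positivity) hM]
    nlinarith [mul_pos hρ hM]
  obtain ⟨s', ⟨hs'0, hs'l⟩, hs'r⟩ :=
    (hsmall.and (hland.eventually (ball_mem_nhds c0 hr0))).exists
  replace hs'r : ‖pa β θ s' - c0‖ < r := by
    rw [← dist_eq_norm]
    exact hs'r
  set sτ : ℝ → ℝ := fun τ => (1 - τ) * s' + τ * s with hsτ
  set tτ : ℝ → ℝ := fun τ => (1 - τ) * θ + τ * t with htτ
  have hsτ0 : ∀ τ ∈ Icc (0 : ℝ) 1, 0 < sτ τ := by
    rintro τ ⟨h0, h1⟩
    simp only [hsτ]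
    rcases h0.eq_or_lt with rfl | h
    · simpa using hs'0
    · have : 0 ≤ (1 - τ) * s' := mul_nonneg (by linarith) hs'0.le
      have : 0 < τ * s := mul_pos h hs
      linarith
  have hφ : ContinuousOn (fun τ => ‖pa β (tτ τ) (sτ τ) - c0‖) (Icc 0 1) :=
    ((pa_cont hβ (by simp only [hsτ]; fun_prop) (by simp only [htτ]; fun_prop) _ hsτ0).sub
      continuousOn_const).norm
  have hφ0 : ‖pa β (tτ 0) (sτ 0) - c0‖ ≤ r := by
    simp only [hsτ, htτ, sub_zero, one_mul, zero_mul, add_zero]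
    exact hs'r.le
  have hφ1 : r ≤ ‖pa β (tτ 1) (sτ 1) - c0‖ := by
    simp only [hsτ, htτ, sub_self, one_mul, zero_mul, zero_add]
    exact hcon.le
  obtain ⟨τ, hτ, hτr⟩ := intermediate_value_Icc zero_le_one hφ ⟨hφ0, hφ1⟩
  simp only at hτr
  set c := pa β (tτ τ) (sτ τ) with hc
  have hcM : c ∈ ball c0 (ρ / M) := by
    rw [mem_ball, dist_eq_norm, hτr]
    exact hrM
  have hcε : c ∈ ball c0 ε := ball_subset_ball hρM hcM
  have hcv : ∀ x y u : ℝ, x < u → y < u → (1 - τ) * x + τ * y < u := by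
    intro x y u hx hy
    have h1 : (1 - τ) * x ≤ (1 - τ) * max x y :=
      mul_le_mul_of_nonneg_left (le_max_left _ _) (by linarith [hτ.2])
    have h2 : τ * y ≤ τ * max x y := mul_le_mul_of_nonneg_left (le_max_right _ _) hτ.1
    have h3 : max x y < u := max_lt hx hy
    linarith
  have hcv' : ∀ x y u : ℝ, u < x → u < y → u < (1 - τ) * x + τ * y := by
    intro x y u hx hy
    have := hcv (-x) (-y) (-u) (by linarith) (by linarith)
    linarith
  have h1 : (d : ℝ) ^ n * sτ τ < l := by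
    have := hcv ((d : ℝ) ^ n * s') ((d : ℝ) ^ n * s) l hs'l hsl
    simp only [hsτ]
    linarith
  have h2 : a < (d : ℝ) ^ n * tτ τ - k := by
    have := hcv' ((d : ℝ) ^ n * θ - k) ((d : ℝ) ^ n * t - k) a ha hat
    simp only [htτ]
    linarith
  have h3 : (d : ℝ) ^ n * tτ τ - k < b := by
    have := hcv ((d : ℝ) ^ n * θ - k) ((d : ℝ) ^ n * t - k) b hb htb
    simp only [htτ]
    linarith
  have h4 : ‖P d (n + 1) c - w‖ ≤ η := bound _ _ (hsτ0 τ hτ) h1 h2 h3 hcε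
  have h5 := hW1 c hcM
  have h6 := hW2 c hcM
  have h7 := hW2 c0 (mem_ball_self (by positivity))
  have h8 : ‖W c - W c0‖ ≤ ‖P d (n + 1) c - W c‖ + ‖P d (n + 1) c - w‖ + ‖P d (n + 1) c0 - w‖ +
      ‖P d (n + 1) c0 - W c0‖ := by
    have e1 : W c - W c0 = -(P d (n + 1) c - W c) + (P d (n + 1) c - w) +
      -(P d (n + 1) c0 - w) + (P d (n + 1) c0 - W c0) := by ring
    rw [e1]
    refine (norm_add_le _ _).trans (add_le_add ?_ le_rfl)
    refine (norm_add_le _ _).trans (add_le_add ?_ (norm_neg _).le)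
    exact (norm_add_le _ _).trans (add_le_add (norm_neg _).le le_rfl)
  have h9 : κ * M * ‖c - c0‖ = κ * ρ / 2 := by
    rw [hτr, hr]
    field_simp
  linarith

theorem t (_hG : St_Grn) : St_Psi := t'

end Pool.Agent.Y514.LC
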